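import Mathlib
import Pool.Agent.H96R3.BC.Stmts

/-!
# PROJECT BIGCOEF, task BASE (helper318): existence of bases
-/

set_option autoImplicit false

open Finset

namespace Pool.Agent.H318R3.BCBase

open Pool.Agent.H469R10.HO (Hoheisel)
open Pool.Agent.H96R3.BC

theorem one_lt_DD {X : ℕ} (hX : 2 ≤ X) : 1 < DD X := by
  have hL : 0 < Real.log X := Real.log_pos (by exact_mod_cast hX)
  have ht : 0 < Real.sqrt (Real.log X) := Real.sqrt_pos.2 hL
  have hsq : Real.sqrt (Real.log X) ^ 2 = Real.log X := Real.sq_sqrt hL.le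
  set t := Real.sqrt (Real.log X) with htdef
  unfold DD
  rw [one_lt_div (by positivity), ← htdef, ← hsq]
  -- t ^ 4 < exp (2 t)
  have h1 : t / 2 < Real.exp (t / 2) := by
    have := Real.add_one_le_exp (t / 2)
    linarith
  have h2 : (t ^ 2) ^ 2 = 16 * (t / 2) ^ 4 := by ring
  have h3 : Real.exp (2 * t) = (Real.exp (t / 2)) ^ 4 := by
    rw [← Real.exp_nat_mul]
    congr 1
    push_cast
    ring
  -- a sharper bound is needed: use exp (t/2) ≥ e * t / 4 with e > 2.7
  have h4 : t / 2 ≤ Real.exp (t / 2 - 1) := by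
    have := Real.add_one_le_exp (t / 2 - 1)
    linarith
  have h5 : Real.exp (t / 2) = Real.exp 1 * Real.exp (t / 2 - 1) := by
    rw [← Real.exp_add]
    congr 1
    ring
  have he : (2.7 : ℝ) < Real.exp 1 := by
    have := Real.exp_one_gt_d9
    linarith
  have h6 : 2.7 * (t / 2) < Real.exp (t / 2) := by
    rw [h5]
    have h7 : 0 < t / 2 := by positivity
    calc 2.7 * (t / 2) < Real.exp 1 * (t / 2) := by
          exact mul_lt_mul_of_pos_right he h7
      _ ≤ Real.exp 1 * Real.exp (t / 2 - 1) := by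
          exact mul_le_mul_of_nonneg_left h4 (Real.exp_pos 1).le
  rw [h2, h3]
  have h8 : (2.7 * (t / 2)) ^ 4 < (Real.exp (t / 2)) ^ 4 := by
    apply pow_lt_pow_left₀ h6 (by positivity)
    norm_num
  have h9 : (2.7 * (t / 2)) ^ 4 = 53.1441 * (t / 2) ^ 4 := by ring
  have h10 : 0 ≤ (t / 2) ^ 4 := by positivity
  nlinarith

/-- one window -/
theorem window {η : ℝ} (hη : 0 < η) {X : ℕ} (hX : 2 ≤ X)
    (hcount : η * X / Real.log X ≤ (((Ioc X (X + X)).filter Nat.Prime).card : ℝ)) :
    ∃ P : Finset ℕ, (∀ p ∈ P, p.Prime ∧ X < p ∧ p ≤ 2 * X) ∧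
      (∀ A Y : ℕ, (((Ioc A (A + Y)).filter (fun p => p ∈ P)).card : ℝ) ≤ Y / DD X + 1) ∧
      (X : ℝ) ≤ (4 / η) * P.card * DD X * Real.log X := by
  classical
  have hL : 0 < Real.log X := Real.log_pos (by exact_mod_cast hX)
  have hD := one_lt_DD hX
  set M : ℕ := ⌈DD X⌉₊ with hM
  have hMD : DD X ≤ M := Nat.le_ceil _
  have hM2 : (M : ℝ) ≤ 2 * DD X := by
    have := Nat.ceil_lt_add_one (by linarith : (0 : ℝ) ≤ DD X)
    linarith
  have hMpos : 0 < M := Nat.ceil_pos.2 (by linarith)
  set S := (Ioc X (X + X)).filter Nat.Prime with hS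
  let β : ℕ → ℕ := fun p => (p - X - 1) / M
  have hσ : ∀ b ∈ S.image β, ∃ p ∈ S, β p = b := fun b hb => by simpa using hb
  let σ : ℕ → ℕ := fun b => if h : ∃ p ∈ S, β p = b then h.choose else 0
  have hσS : ∀ b ∈ S.image β, σ b ∈ S := by
    intro b hb
    have h := hσ b hb
    simp only [σ, dif_pos h]
    exact h.choose_spec.1
  have hσβ : ∀ b ∈ S.image β, β (σ b) = b := by
    intro b hb
    have h := hσ b hb
    simp only [σ, dif_pos h]
    exact h.choose_spec.2
  let T : ℕ → Finset ℕ := fun r => (S.image β).filter (fun b => b % 2 = r)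
  let P : ℕ → Finset ℕ := fun r => (T r).image σ
  have hTsub : ∀ r, ∀ b ∈ T r, b ∈ S.image β := fun r b hb => (mem_filter.1 hb).1
  have hcardP : ∀ r, (P r).card = (T r).card := by
    intro r
    apply card_image_of_injOn
    intro a ha b hb hab
    have ha' := hTsub r a ha
    have hb' := hTsub r b hb
    rw [← hσβ a ha', ← hσβ b hb', hab]
  have hPmem : ∀ r, ∀ p ∈ P r, p ∈ S ∧ β p % 2 = r ∧ σ (β p) = p := by
    intro r p hp
    obtain ⟨b, hb, rfl⟩ := mem_image.1 hp
    have hb' := hTsub r b hb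
    refine ⟨hσS b hb', ?_, ?_⟩
    · rw [hσβ b hb']
      exact (mem_filter.1 hb).2
    · rw [hσβ b hb']
  have hfar : ∀ r, ∀ p ∈ P r, ∀ q ∈ P r, p < q → p + M < q := by
    intro r p hp q hq hpq
    obtain ⟨hpS, hp2, hpσ⟩ := hPmem r p hp
    obtain ⟨hqS, hq2, hqσ⟩ := hPmem r q hq
    have hpX : X < p := (mem_Ioc.1 (mem_filter.1 hpS).1).1
    have hqX : X < q := (mem_Ioc.1 (mem_filter.1 hqS).1).1
    have hle : β p ≤ β q := Nat.div_le_div_right (by omega)
    have hne : β p ≠ β q := by
      intro h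
      rw [← hpσ, ← hqσ, h] at hpq
      exact lt_irrefl _ hpq
    have h2 : β p + 2 ≤ β q := by omega
    have h3 : (β p + 2) * M ≤ q - X - 1 := by
      calc (β p + 2) * M ≤ β q * M := Nat.mul_le_mul_right _ h2
        _ ≤ q - X - 1 := Nat.div_mul_le_self _ _
    have h4 : p - X - 1 < (β p + 1) * M := by
      have := Nat.lt_div_mul_add hMpos (a := p - X - 1)
      change p - X - 1 < ((p - X - 1) / M + 1) * M
      rw [add_mul, one_mul]
      exact this
    have h5 : (β p + 2) * M = (β p + 1) * M + M := by ring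
    omega
  have hsparse : ∀ r, ∀ A Y : ℕ,
      (((Ioc A (A + Y)).filter (fun p => p ∈ P r)).card : ℝ) ≤ Y / DD X + 1 := by
    intro r A Y
    have h1 : ((Ioc A (A + Y)).filter (fun p => p ∈ P r)).card ≤ Y / M + 1 := by
      have h2 : ((Ioc A (A + Y)).filter (fun p => p ∈ P r)).card ≤ (range (Y / M + 1)).card := by
        apply card_le_card_of_injOn (fun p => (p - A - 1) / M)
        · intro p hp
          have hp' := mem_Ioc.1 (mem_filter.1 hp).1
          simp only [coe_range, Set.mem_Iio]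
          have : (p - A - 1) / M ≤ Y / M := Nat.div_le_div_right (by omega)
          omega
        · intro p hp q hq hpq
          have hp' := mem_Ioc.1 (mem_filter.1 hp).1
          have hq' := mem_Ioc.1 (mem_filter.1 hq).1
          have hpP := (mem_filter.1 hp).2
          have hqP := (mem_filter.1 hq).2
          have hlt : ∀ p q : ℕ, A < p → p + M < q → (p - A - 1) / M < (q - A - 1) / M := by
            intro p q hp hpq
            have h3 : (p - A - 1) / M + 1 = (p - A - 1 + M) / M := (Nat.add_div_right _ hMpos).symm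
            have h4 : (p - A - 1 + M) / M ≤ (q - A - 1) / M := Nat.div_le_div_right (by omega)
            omega
          rcases lt_trichotomy p q with h | h | h
          · exact absurd hpq (ne_of_lt (hlt p q hp'.1 (hfar r p hpP q hqP h)))
          · exact h
          · exact absurd hpq.symm (ne_of_lt (hlt q p hq'.1 (hfar r q hqP p hpP h)))
      rwa [card_range] at h2
    have h3 : (((Ioc A (A + Y)).filter (fun p => p ∈ P r)).card : ℝ) ≤ ((Y / M : ℕ) : ℝ) + 1 := by
      exact_mod_cast h1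
    refine h3.trans ?_
    have h4 : ((Y / M : ℕ) : ℝ) ≤ (Y : ℝ) / M := Nat.cast_div_le
    have h5 : (Y : ℝ) / M ≤ Y / DD X :=
      div_le_div_of_nonneg_left (Nat.cast_nonneg _) (by linarith) hMD
    linarith
  -- counting
  have hScard : S.card ≤ M * (S.image β).card := by
    apply card_le_mul_card_image
    intro b _
    have h1 : (S.filter (fun p => β p = b)) ⊆ Ioc (X + b * M) (X + b * M + M) := by
      intro p hp
      obtain ⟨hpS, hpb⟩ := mem_filter.1 hp
      have hpX : X < p := (mem_Ioc.1 (mem_filter.1 hpS).1).1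
      have h2 : b * M ≤ p - X - 1 := by
        rw [← hpb]
        exact Nat.div_mul_le_self _ _
      have h3 : p - X - 1 < b * M + M := by
        rw [← hpb]
        exact Nat.lt_div_mul_add hMpos
      rw [mem_Ioc]
      omega
    refine (card_le_card h1).trans ?_
    rw [Nat.card_Ioc]
    omega
  have hsplit : (S.image β).card = (T 0).card + (T 1).card := by
    have h1 : (S.image β).filter (fun b => ¬ b % 2 = 0) = T 1 := by
      apply filter_congr
      intro b _
      omega
    have h2 := card_filter_add_card_filter_not (s := S.image β) (fun b => b % 2 = 0)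
    rw [h1] at h2
    exact h2.symm
  obtain ⟨r, hr⟩ : ∃ r, (S.image β).card ≤ 2 * (P r).card := by
    rcases le_total (T 0).card (T 1).card with h | h
    · exact ⟨1, by rw [hcardP]; omega⟩
    · exact ⟨0, by rw [hcardP]; omega⟩
  refine ⟨P r, ?_, hsparse r, ?_⟩
  · intro p hp
    obtain ⟨hpS, -, -⟩ := hPmem r p hp
    obtain ⟨h1, h2⟩ := mem_filter.1 hpS
    have h3 := mem_Ioc.1 h1
    exact ⟨h2, h3.1, by omega⟩
  · have h1 : (S.card : ℝ) ≤ M * (2 * (P r).card) := by
      have : S.card ≤ M * (2 * (P r).card) := hScard.trans (Nat.mul_le_mul_left _ hr)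
      exact_mod_cast this
    have h2 : (M : ℝ) * (2 * (P r).card) ≤ 2 * DD X * (2 * (P r).card) :=
      mul_le_mul_of_nonneg_right hM2 (by positivity)
    have h3 : η * X / Real.log X ≤ 4 * DD X * (P r).card := by
      calc η * X / Real.log X ≤ S.card := hcount
        _ ≤ 2 * DD X * (2 * (P r).card) := h1.trans h2
        _ = 4 * DD X * (P r).card := by ring
    rw [div_le_iff₀ hL] at h3
    have h5 : (4 / η * (P r).card * DD X * Real.log X) * η = 4 * DD X * (P r).card * Real.log X := by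
      have : 4 / η * η = 4 := div_mul_cancel₀ _ hη.ne'
      calc (4 / η * (P r).card * DD X * Real.log X) * η
          = (4 / η * η) * DD X * (P r).card * Real.log X := by ring
        _ = _ := by rw [this]
    have h6 : (X : ℝ) * η ≤ (4 / η * (P r).card * DD X * Real.log X) * η := by
      rw [h5, mul_comm (X : ℝ) η]
      exact h3
    exact le_of_mul_le_mul_right h6 hη

/-- the tower -/
noncomputable def tw (N : ℕ) : ℕ → ℕ
  | 0 => N
  | i + 1 => ⌈Real.exp (Real.exp ((tw N i : ℝ) ^ 2))⌉₊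

theorem tw_tower (N i : ℕ) : Real.exp (Real.exp ((tw N i : ℝ) ^ 2)) ≤ tw N (i + 1) :=
  Nat.le_ceil _

theorem tw_gap (N i : ℕ) : 2 * tw N i < tw N (i + 1) := by
  have h1 := tw_tower N i
  have h2 : (2 * (tw N i : ℝ)) < Real.exp (Real.exp ((tw N i : ℝ) ^ 2)) := by
    have h3 := Real.add_one_le_exp ((tw N i : ℝ) ^ 2)
    have h4 := Real.add_one_le_exp (Real.exp ((tw N i : ℝ) ^ 2))
    nlinarith [sq_nonneg ((tw N i : ℝ) - 1)]
  have h5 : (2 * (tw N i : ℝ)) < tw N (i + 1) := lt_of_lt_of_le h2 h1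
  exact_mod_cast h5

theorem tw_lt (N : ℕ) {i j : ℕ} (h : i < j) : 2 * tw N i < tw N j := by
  induction j with
  | zero => omega
  | succ j ih =>
    have h1 := tw_gap N j
    rcases Nat.lt_succ_iff_lt_or_eq.1 h with h2 | h2
    · have := ih h2
      omega
    · subst h2
      exact h1

theorem tw_ge (N i : ℕ) : N ≤ tw N i := by
  rcases Nat.eq_zero_or_pos i with h | h
  · subst h
    exact le_rfl
  · have h1 := tw_lt N h
    have h2 : tw N 0 = N := rfl
    omega

theorem taskBase : TaskBase := by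
  classical
  rintro ⟨δ, η, hδ0, hδ1, hη, X₀, hX₀, hH⟩
  refine ⟨4 / η, by positivity, fun N => ?_⟩
  set N' := max N X₀ with hN'
  have hwin : ∀ i, ∃ P : Finset ℕ, (∀ p ∈ P, p.Prime ∧ tw N' i < p ∧ p ≤ 2 * tw N' i) ∧
      (∀ A Y : ℕ, (((Ioc A (A + Y)).filter (fun p => p ∈ P)).card : ℝ) ≤ Y / DD (tw N' i) + 1) ∧
      (tw N' i : ℝ) ≤ (4 / η) * P.card * DD (tw N' i) * Real.log (tw N' i) := by
    intro i
    have h1 : X₀ ≤ tw N' i := (le_max_right _ _).trans (tw_ge N' i)
    have h2 : 2 ≤ tw N' i := hX₀.trans h1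
    apply window hη h2
    apply hH _ _ h1
    · have h3 : (1 : ℝ) ≤ tw N' i := by
        have : 1 ≤ tw N' i := by omega
        exact_mod_cast this
      calc ((tw N' i : ℕ) : ℝ) ^ (1 - δ) ≤ (tw N' i : ℝ) ^ (1 : ℝ) :=
            Real.rpow_le_rpow_of_exponent_le h3 (by linarith)
        _ = tw N' i := Real.rpow_one _
    · exact le_rfl
  choose P0 hmem hsp hmany using hwin
  have huniq : ∀ p i j, p ∈ P0 i → p ∈ P0 j → i = j := by
    intro p i j hi hj
    have h1 := hmem i p hi
    have h2 := hmem j p hj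
    rcases lt_trichotomy i j with h | h | h
    · have := tw_lt N' h
      omega
    · exact h
    · have := tw_lt N' h
      omega
  let a0 : ℕ → ℝ := fun p => if h : ∃ i, p ∈ P0 i then AA (tw N' h.choose) else 0
  refine ⟨tw N', P0, a0, (le_max_left _ _).trans (tw_ge N' 0), ⟨tw_tower N', hmem, ?_, hmany, ?_, ?_⟩⟩
  · intro i A Y
    exact hsp i A Y
  · intro i p hp
    have h : ∃ i, p ∈ P0 i := ⟨i, hp⟩
    have h1 : h.choose = i := huniq p _ _ h.choose_spec hp
    change (if h : ∃ i, p ∈ P0 i then AA (tw N' h.choose) else 0) = AA (tw N' i)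
    rw [dif_pos h, h1]
  · intro p hp
    have h : ¬ ∃ i, p ∈ P0 i := fun ⟨i, hi⟩ => hp i hi
    change (if h : ∃ i, p ∈ P0 i then AA (tw N' h.choose) else 0) = 0
    rw [dif_neg h]

end Pool.Agent.H318R3.BCBase
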